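import Pool.Agent.H30.VM.TargetsF

/-!
# MP_70ba79_ag: the final statement (row FIP of the board `vmp_modules`)
-/

set_option autoImplicit false

namespace Pool.Agent.H30.VMP

open MvPolynomial SC Pool.Agent.H27.LV Pool.Agent.H17.VG
open Pool.Agent.H17.CI (Tup IlT PQT TxT frmT upT RatT)
open Pool.Agent.H30.VM

lemma up_self {k : Type} [Field k] {n : ℕ} (F : MvPolynomial (Fin (n + 1)) k) : up k F = F := by
  unfold up
  rw [Algebra.algebraMap_self, MvPolynomial.map_id]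

/-- homogeneity -/
lemma eval_smul_hom {K : Type} [Field K] {n d : ℕ} {G : MvPolynomial (Fin (n + 1)) K}
    (hG : G.IsHomogeneous d) (c : K) (x : Fin (n + 1) → K) :
    eval (c • x) G = c ^ d * eval x G := by
  rw [eval_eq', eval_eq', Finset.mul_sum]
  refine Finset.sum_congr rfl fun m hm => ?_
  have h1 : m.degree = d := by
    by_contra h
    exact (mem_support_iff.1 hm) (hG.coeff_eq_zero h)
  have h2 : ∏ i, (c • x) i ^ m i = c ^ d * ∏ i, x i ^ m i := by
    simp_rw [Pi.smul_apply, smul_eq_mul, mul_pow]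
    rw [Finset.prod_mul_distrib, Finset.prod_pow_eq_pow_sum, ← h1, Finsupp.degree_eq_sum]
  rw [h2]
  ring

theorem pf_FIP (hMN : T_MNT) (hPA : T_PTA) (hPB : T_PTB) (hVD : T_VDP) (hXF : T_XFT)
    (hPS : T_PSP) : T_FIP := by
  intro n ι _ _ e Z hZu hZ hne
  obtain ⟨i₀, hi₀⟩ : ∃ i, i ∉ Z := by
    by_contra h
    push Not at h
    exact hZu (Finset.eq_univ_iff_forall.2 h)
  obtain ⟨C, hC⟩ := hMN n ι i₀ e Z hi₀ hZ hne
  refine ⟨dgB e Z * C, ?_⟩
  intro k _ _ _ c hc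
  refine ⟨?_, ?_, ?_⟩
  · intro K _ _ _ htr S z hz hreg hnc hexc D hD
    obtain ⟨x, hx⟩ := hPA k K n ι i₀ e Z c hi₀ z hz
    obtain ⟨h1, h2, h3⟩ := hVD k K htr n ι i₀ e Z c z x hi₀ hx
    obtain ⟨p, hp⟩ := hx.1
    have h4 := hC k c hc K htr D hD x p hp (h3 hnc) hx.2.1
      (fun y hxy hex => hexc ⟨x, y, hx, hxy, hex⟩) S (fun v hv => h1 v (hreg v hv))
    rw [h2]
    show ((dgB e Z * deg k x : ℕ) : ℤ) ≤ ((dgB e Z * C : ℕ) : ℤ) * (canDeg D + S.card)
    rw [Nat.cast_mul, Nat.cast_mul, mul_assoc]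
    exact mul_le_mul_of_nonneg_left h4 (Int.natCast_nonneg _)
  · obtain ⟨Φ, m, hΦ, ⟨x, hx, hxΦ⟩, hall⟩ := hXF k n ι e Z c hZ.le (by omega) hc
    obtain ⟨Ψ, hΨ⟩ := hPS k n ι i₀ e Z c hi₀ Φ m hΦ
    have hup : ∀ i, upT k (frmT c) i = frmT c i := fun i => up_self _
    refine ⟨Ψ, ?_, ?_⟩
    · have hx0 : x ≠ 0 := by
        rintro rfl
        have h0 : eval (0 : Fin (n + 1) → k) (frmT c i₀) = 0 := by
          have h1 := eval_smul_hom (frm_homog fun M => c ⟨i₀, M⟩) (0 : k)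
            (0 : Fin (n + 1) → k)
          rw [zero_pow (Nat.succ_ne_zero _), zero_mul] at h1
          rw [zero_smul] at h1
          exact h1
        exact hi₀ ((hx i₀).1 h0)
      obtain ⟨p, hp⟩ := Function.ne_iff.1 hx0
      have hp' : x p ≠ 0 := hp
      have hx' : ∀ i, eval ((x p)⁻¹ • x) (frmT c i) = 0 ↔ i ∈ Z := by
        intro i
        have h2 : eval ((x p)⁻¹ • x) (frmT c i) = ((x p)⁻¹) ^ (e i + 1) * eval x (frmT c i) :=
          eval_smul_hom (frm_homog fun M => c ⟨i, M⟩) _ _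
        rw [← hx i, h2]
        constructor
        · intro h
          exact (mul_eq_zero.1 h).resolve_left (pow_ne_zero _ (inv_ne_zero hp'))
        · intro h
          rw [h, mul_zero]
      have hI : IsPt Z c (fun M : Mon (n + 1) (dgB e Z) =>
          (∏ a, ((x p)⁻¹ • x) a ^ M.1 a) / eval ((x p)⁻¹ • x) (up k (bnd Z c)))
          ((x p)⁻¹ • x) := by
        refine ⟨⟨p, ?_⟩, ?_, fun M => rfl⟩
        · rw [Pi.smul_apply, smul_eq_mul, inv_mul_cancel₀ hp']
        · intro i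
          rw [hup i]
          exact hx' i
      refine ⟨_, (hPB k k n ι e Z c _ _ hI), ?_⟩
      intro h0
      have h1 := (hΨ k _ _ hI).1 h0
      rw [up_self, eval_smul_hom hΦ] at h1
      exact hxΦ ((mul_eq_zero.1 h1).resolve_left (pow_ne_zero _ (inv_ne_zero hp')))
    · rintro K _ _ z ⟨x, y, hx, hxy, hex⟩
      exact (hΨ K z x hx).2 (hall K x y hxy hx.2.1 hex)
  · intro K _ _ z
    constructor
    · intro hz
      exact hPA k K n ι i₀ e Z c hi₀ z hz
    · rintro ⟨x, hx⟩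
      exact hPB k K n ι e Z c z x hx

end Pool.Agent.H30.VMP
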