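import Pool.Agent.H30.VM.TargetsG
import Pool.Agent.H17.VG.TT
import Pool.Agent.H30.VMP.FIP

/-!
# MP_70ba79_ag: exceptional lines do not depend on the points (row NFT of `vmp_modules`)
-/

set_option autoImplicit false

namespace Pool.Agent.H30.VMP

open MvPolynomial SC Pool.Agent.H27.LV Pool.Agent.H17.VG
open Pool.Agent.H17.CI (Tup IlT PQT TxT frmT upT RatT)
open Pool.Agent.H30.VM

/-- restriction and evaluation over the algebraic closure, other points of the line -/
lemma eval_res_move {K : Type} [Field K] {n : ℕ} (F : MvPolynomial (Fin (n + 1)) K)
    (x y : Fin (n + 1) → K) (c s t : K) (T : AlgebraicClosure K) :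
    ((res (c • x) (s • y + t • x) F).map (algebraMap K (AlgebraicClosure K))).eval T =
      eval (fun i => (algebraMap K (AlgebraicClosure K) c +
          algebraMap K (AlgebraicClosure K) t * T) * algebraMap K (AlgebraicClosure K) (x i) +
        (algebraMap K (AlgebraicClosure K) s * T) * algebraMap K (AlgebraicClosure K) (y i))
        (MvPolynomial.map (algebraMap K (AlgebraicClosure K)) F) := by
  rw [TT.eval_map_res]
  congr 2
  funext i
  simp only [Pi.smul_apply, Pi.add_apply, smul_eq_mul, map_mul, map_add]
  ring

theorem pf_NFT : T_NFT := by
  intro K _ n ι e Z F x y c s t hF hc hs hex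
  have hinf : Infinite (AlgebraicClosure K) := inferInstance
  obtain ⟨hz, α, β, hnz⟩ := hex
  have hinj : Function.Injective (Polynomial.map (algebraMap K (AlgebraicClosure K))) :=
    Polynomial.map_injective _ (algebraMap K (AlgebraicClosure K)).injective
  have hcc : algebraMap K (AlgebraicClosure K) c ≠ 0 := by simpa using hc
  refine ⟨?_, (algebraMap K _ t + algebraMap K _ s * α) / algebraMap K _ c,
    (algebraMap K _ t + algebraMap K _ s * β) / algebraMap K _ c, ?_⟩
  · intro i hi
    have h1 := TT.bin_of_aff ((hF i).map (algebraMap K (AlgebraicClosure K)))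
      (fun i => algebraMap K (AlgebraicClosure K) (x i))
      (fun i => algebraMap K (AlgebraicClosure K) (y i)) 0 0 0 (Nat.zero_add (e i + 1)) (by
        intro T
        rw [← TT.eval_map_res, hz i hi]
        simp)
    apply hinj
    rw [Polynomial.map_zero]
    refine Polynomial.funext fun T => ?_
    rw [eval_res_move, h1]
    simp
  · intro i hi
    obtain ⟨a, b, hab, h0⟩ := hnz i hi
    have h1 := TT.bin_of_aff ((hF i).map (algebraMap K (AlgebraicClosure K)))
      (fun i => algebraMap K (AlgebraicClosure K) (x i))
      (fun i => algebraMap K (AlgebraicClosure K) (y i))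
      (algebraMap K (AlgebraicClosure K) (eval x (F i))) α β hab (by
        intro T
        rw [← TT.eval_map_res, h0]
        simp)
    refine ⟨a, b, hab, ?_⟩
    refine Polynomial.funext fun T => ?_
    rw [eval_res_move, h1, eval_smul_hom (hF i), ← hab, pow_add]
    simp only [Polynomial.eval_mul, Polynomial.eval_C, Polynomial.eval_pow, Polynomial.eval_add,
      Polynomial.eval_one, Polynomial.eval_X, map_mul, map_pow]
    have e1 : algebraMap K (AlgebraicClosure K) c + algebraMap K (AlgebraicClosure K) t * T +
        α * (algebraMap K (AlgebraicClosure K) s * T) = algebraMap K (AlgebraicClosure K) c *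
          (1 + (algebraMap K (AlgebraicClosure K) t + algebraMap K (AlgebraicClosure K) s * α) /
            algebraMap K (AlgebraicClosure K) c * T) := by
      field_simp
      ring
    have e2 : algebraMap K (AlgebraicClosure K) c + algebraMap K (AlgebraicClosure K) t * T +
        β * (algebraMap K (AlgebraicClosure K) s * T) = algebraMap K (AlgebraicClosure K) c *
          (1 + (algebraMap K (AlgebraicClosure K) t + algebraMap K (AlgebraicClosure K) s * β) /
            algebraMap K (AlgebraicClosure K) c * T) := by
      field_simp
      ring
    rw [e1, e2, mul_pow, mul_pow]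
    ring

end Pool.Agent.H30.VMP
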