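import Pool.Agent.H30.VM.TargetsG
import Pool.Agent.H30.VMP.NFT

/-!
# MP_70ba79_ag: the exceptional lines do not cover the variety (row XFT of `vmp_modules`)
-/

set_option autoImplicit false

namespace Pool.Agent.H30.VMP

open MvPolynomial SC Pool.Agent.H27.LV Pool.Agent.H17.VG
open Pool.Agent.H17.CI (Tup IlT PQT TxT frmT upT RatT)
open Pool.Agent.H30.VM

section

variable {k : Type} [Field k] {n : ℕ}

/-- homogenisation -/
noncomputable def hom0 (Ψ : MvPolynomial (Fin n) k) : MvPolynomial (Fin (n + 1)) k :=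
  ∑ j ∈ Finset.range (Ψ.totalDegree + 1),
    X 0 ^ (Ψ.totalDegree - j) * rename Fin.succ (homogeneousComponent j Ψ)

lemma hom0_hom (Ψ : MvPolynomial (Fin n) k) : (hom0 Ψ).IsHomogeneous Ψ.totalDegree := by
  unfold hom0
  refine IsHomogeneous.sum _ _ _ fun j hj => ?_
  have hj' : j ≤ Ψ.totalDegree := Nat.lt_succ_iff.1 (Finset.mem_range.1 hj)
  have h1 : (X 0 ^ (Ψ.totalDegree - j) : MvPolynomial (Fin (n + 1)) k).IsHomogeneous
      (Ψ.totalDegree - j) := by
    have := (isHomogeneous_X k (0 : Fin (n + 1))).pow (Ψ.totalDegree - j)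
    rwa [one_mul] at this
  have h2 := h1.mul ((homogeneousComponent_isHomogeneous j Ψ).rename_isHomogeneous
    (f := (Fin.succ : Fin n → Fin (n + 1))))
  rwa [Nat.sub_add_cancel hj'] at h2

lemma hom0_eval {K : Type} [Field K] [Algebra k K] (Ψ : MvPolynomial (Fin n) k)
    (x : Fin (n + 1) → K) (u : Fin n → K) (hu : ∀ a, x a.succ = x 0 * u a) :
    eval x (up K (hom0 Ψ)) = x 0 ^ Ψ.totalDegree * aeval u Ψ := by
  have h0 : ∀ G : MvPolynomial (Fin (n + 1)) k, eval x (up K G) = aeval x G := by
    intro G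
    unfold up
    rw [eval_map, aeval_def]
  rw [h0]
  have hs : aeval u Ψ = ∑ j ∈ Finset.range (Ψ.totalDegree + 1),
      aeval u (homogeneousComponent j Ψ) := by
    rw [← map_sum, sum_homogeneousComponent]
  rw [hs]
  unfold hom0
  rw [map_sum, Finset.mul_sum]
  refine Finset.sum_congr rfl fun j hj => ?_
  have hj' : j ≤ Ψ.totalDegree := Nat.lt_succ_iff.1 (Finset.mem_range.1 hj)
  rw [map_mul, map_pow, aeval_X, aeval_rename]
  have h1 : x ∘ Fin.succ = fun a => x 0 * u a := funext hu
  rw [h1]
  have h2 : aeval (fun a => x 0 * u a) (homogeneousComponent j Ψ) =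
      x 0 ^ j * aeval u (homogeneousComponent j Ψ) := by
    rw [aeval_def, aeval_def, eval₂_eq', eval₂_eq', Finset.mul_sum]
    refine Finset.sum_congr rfl fun m hm => ?_
    have h3 : m.degree = j := by
      by_contra h
      exact (mem_support_iff.1 hm) ((homogeneousComponent_isHomogeneous j Ψ).coeff_eq_zero h)
    simp_rw [mul_pow]
    rw [Finset.prod_mul_distrib, Finset.prod_pow_eq_pow_sum, ← Finsupp.degree_eq_sum, h3]
    ring
  rw [h2, ← mul_assoc, ← pow_add, Nat.sub_add_cancel hj']

end

theorem pf_XFT (hGPT : Pool.Agent.H17.CI.T_GPT) (hNZT : Pool.Agent.H17.CI.T_NZT) (hXMT : T_XMT)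
    (hXEL : Pool.Agent.H17.CI.T_XEL) (hXPO : T_XPO) (hNST : Pool.Agent.H17.CI.T_NST)
    (hNFT : T_NFT) : T_XFT := by
  intro k _ _ _ n ι _ e Z c hZn hn hc
  classical
  obtain ⟨Ω0, iF, iA, x0, B, h1, hB, hind, hon⟩ := hGPT k n ι e Z c hZn hc
  let _ := iF
  let _ := iA
  let x0' : Fin n → Ω0 := fun a => x0 a.succ
  have hx0 : (Fin.cons 1 x0' : Fin (n + 1) → Ω0) = x0 := by
    funext i
    refine Fin.cases ?_ (fun j => ?_) i
    · rw [Fin.cons_zero, h1]
    · rw [Fin.cons_succ]
  -- the polynomials
  have hI : ∀ (q : Fin n) (a : (i : ι) → Fin (e i + 2)), ∃ Φ : MvPolynomial (Fin n) k,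
      aeval x0' Φ ≠ 0 ∧
      ∀ (K : Type) [Field K] [Algebra k K] (x y : Fin n → K) (α : Fin 2 → K), y q = 1 →
        (∀ i ∈ Z, res (Fin.cons 1 x : Fin (n + 1) → K) (Fin.cons 0 y) (upT K (frmT c) i) = 0) →
        (∀ i, i ∉ Z → res (Fin.cons 1 x : Fin (n + 1) → K) (Fin.cons 0 y) (upT K (frmT c) i) =
          Polynomial.C (eval (Fin.cons 1 x : Fin (n + 1) → K) (upT K (frmT c) i)) *
            (1 + Polynomial.C (α 0) * Polynomial.X) ^ (a i : ℕ) *
            (1 + Polynomial.C (α 1) * Polynomial.X) ^ (e i + 1 - a i)) → aeval x Φ = 0 := by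
    intro q a
    obtain ⟨I, hI⟩ := hXPO k n ι (frmT c) Z q (fun i => (a i : ℕ)) (fun i => e i + 1 - a i)
    rcases hXEL k (Fin n) (Fin n ⊕ Fin 2) I Ω0 x0' with
      ⟨Φ, hΦ, hspan⟩ | ⟨Ω, iF', iA', x, y, hf, hsp⟩
    · refine ⟨Φ, hΦ, ?_⟩
      intro K _ _ x y α hq hz hnz
      have h2 := (hI K x y α).2 ⟨hq, hz, hnz⟩
      have h3 : ∀ p ∈ Ideal.span I, aeval (Sum.elim x (Sum.elim y α)) p = 0 := by
        intro p hp
        have h4 : Ideal.span I ≤ RingHom.ker
            (aeval (R := k) (Sum.elim x (Sum.elim y α))) := by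
          rw [Ideal.span_le]
          intro f hf
          exact h2 f hf
        exact h4 hp
      have h5 := h3 _ hspan
      rw [aeval_rename] at h5
      exact h5
    · exfalso
      let _ := iF'
      let _ := iA'
      let y' : Fin n → Ω := fun i => y (Sum.inl i)
      let α : Fin 2 → Ω := fun t => y (Sum.inr t)
      have hy : y = Sum.elim y' α := by
        funext i
        rcases i with i | i <;> rfl
      rw [hy] at hf
      obtain ⟨hq, hz, hnz⟩ := (hI Ω x y' α).1 hf
      have : CharZero Ω := charZero_of_injective_algebraMap (algebraMap k Ω).injective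
      refine hXMT k Ω n ι e Z c hn hc (Fin.cons 1 x) (Fin.cons 0 y') B (Fin.cons_zero _ _) ?_ hB
        ?_ (α 0) (α 1) (fun i => (a i : ℕ)) (fun i => e i + 1 - a i) ?_ hz hnz
      · rw [algebraicIndependent_iff]
        intro p hp
        have h2 : aeval x (rename (fun b : B => b.1) p) = 0 := by
          rw [aeval_rename]
          exact hp
        have h3 := hsp _ h2
        rw [aeval_rename] at h3
        exact (algebraicIndependent_iff.1 hind) p h3
      · unfold Indep
        rw [LinearIndependent.pair_iff]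
        intro s t hst
        have h2 := congrFun hst 0
        have h3 := congrFun hst q.succ
        simp only [Pi.add_apply, Pi.smul_apply, Fin.cons_zero, Fin.cons_succ, smul_eq_mul,
          mul_one, mul_zero, add_zero, Pi.zero_apply] at h2 h3
        rw [h2, zero_mul, zero_add, hq, mul_one] at h3
        exact ⟨h2, h3⟩
      · intro i _
        have := (a i).2
        omega
  choose Φ hΦ hΦ' using hI
  let Ψ : MvPolynomial (Fin n) k := ∏ q : Fin n, ∏ a : (i : ι) → Fin (e i + 2), Φ q a
  have hΨ0 : aeval x0' Ψ ≠ 0 := by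
    simp only [Ψ, map_prod]
    exact Finset.prod_ne_zero_iff.2 fun q _ => Finset.prod_ne_zero_iff.2 fun a _ => hΦ q _
  -- dehomogenization
  let deh : MvPolynomial (Fin (n + 1)) k →ₐ[k] MvPolynomial (Fin n) k :=
    aeval (Fin.cons 1 X : Fin (n + 1) → MvPolynomial (Fin n) k)
  have hdeh : ∀ (K : Type) [Field K] [Algebra k K] (x : Fin n → K)
      (G : MvPolynomial (Fin (n + 1)) k),
      aeval x (deh G) = eval (Fin.cons 1 x : Fin (n + 1) → K) (up K G) := by
    intro K _ _ x G
    simp only [deh, up]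
    rw [eval_map, ← aeval_def]
    induction G using MvPolynomial.induction_on with
    | C a => simp
    | add p q hp hq => simp only [map_add, hp, hq]
    | mul_X p i hp =>
      simp only [map_mul, hp, aeval_X]
      congr 1
      refine Fin.cases ?_ (fun j => ?_) i
      · simp
      · simp
  have hnz0 : ∀ j, j ∉ Z → eval x0 (upT Ω0 (frmT c) j) ≠ 0 := by
    intro j hj h0
    have : CharZero Ω0 := charZero_of_injective_algebraMap (algebraMap k Ω0).injective
    have h2 := hNZT k Ω0 n ι e c hc x0 B h1 hind (insert j Z) (by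
      intro i hi
      rcases Finset.mem_insert.1 hi with h | h
      · rw [h]; exact h0
      · exact hon i h)
    rw [Finset.card_insert_of_notMem hj] at h2
    omega
  obtain ⟨x, hxE, hxg⟩ := hNST k n Ω0 x0' {f | ∃ i ∈ Z, f = deh (frmT c i)}
    (Ψ * ∏ i : ι, if i ∈ Z then 1 else deh (frmT c i))
    (by
      rintro f ⟨i, hi, rfl⟩
      rw [hdeh, hx0]
      exact hon i hi)
    (by
      rw [map_mul]
      refine mul_ne_zero hΨ0 ?_
      rw [map_prod]
      refine Finset.prod_ne_zero_iff.2 fun i _ => ?_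
      split_ifs with hi
      · rw [map_one]; exact one_ne_zero
      · rw [hdeh, hx0]
        exact hnz0 i hi)
  have hev : ∀ p : MvPolynomial (Fin n) k, aeval x p = eval x p := fun p => by
    rw [← coe_aeval_eq_eval]
    rfl
  have hevk : ∀ (G : MvPolynomial (Fin (n + 1)) k),
      eval x (deh G) = eval (Fin.cons 1 x : Fin (n + 1) → k) G := by
    intro G
    have h2 := hdeh k x G
    rw [hev] at h2
    rw [h2]
    congr 1
    exact MvPolynomial.map_id G
  refine ⟨X 0 * hom0 Ψ, 1 + Ψ.totalDegree, (isHomogeneous_X k 0).mul (hom0_hom Ψ),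
    ⟨Fin.cons 1 x, ?_, ?_⟩, ?_⟩
  · intro i
    constructor
    · intro h0
      by_contra hi
      rw [← hevk] at h0
      apply hxg
      have h2 : eval x (∏ j : ι, if j ∈ Z then 1 else deh (frmT c j)) = 0 := by
        rw [map_prod]
        refine Finset.prod_eq_zero (Finset.mem_univ i) ?_
        rw [if_neg hi]
        exact h0
      rw [RingHom.map_mul, h2, mul_zero]
    · intro hi
      rw [← hevk]
      exact hxE _ ⟨i, hi, rfl⟩
  · intro h0
    apply hxg
    have h2 := hom0_eval (K := k) Ψ (Fin.cons 1 x) x (by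
      intro a
      rw [Fin.cons_succ, Fin.cons_zero, one_mul])
    rw [up_self, Fin.cons_zero, one_pow, one_mul, hev] at h2
    rw [map_mul, eval_X, Fin.cons_zero, one_mul, h2] at h0
    rw [RingHom.map_mul, h0, zero_mul]
  · intro K _ _ x y hxy hxZ hex
    have hmul : eval x (up K (X 0 * hom0 Ψ)) = x 0 * eval x (up K (hom0 Ψ)) := by
      unfold up
      rw [map_mul, map_X, map_mul, eval_X]
    rw [hmul]
    by_cases hx0' : x 0 = 0
    · rw [hx0', zero_mul]
    have hF : ∀ i, (upT K (frmT c) i).IsHomogeneous (e i + 1) := fun i =>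
      (frm_homog fun M => c ⟨i, M⟩).map _
    -- another point of the line
    have hq : ∃ q : Fin n, y q.succ - y 0 * (x 0)⁻¹ * x q.succ ≠ 0 := by
      by_contra hcon
      push Not at hcon
      unfold Indep at hxy
      rw [LinearIndependent.pair_iff] at hxy
      have h2 := hxy (-(y 0 * (x 0)⁻¹)) 1 (by
        funext i
        simp only [Pi.add_apply, Pi.smul_apply, smul_eq_mul, one_mul, Pi.zero_apply]
        refine Fin.cases ?_ (fun j => ?_) i
        · field_simp
          ring
        · have h3 := hcon j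
          linear_combination h3)
      exact one_ne_zero h2.2
    obtain ⟨q, hq⟩ := hq
    obtain ⟨s, hs⟩ : ∃ s : K, s = (y q.succ - y 0 * (x 0)⁻¹ * x q.succ)⁻¹ := ⟨_, rfl⟩
    have hs0 : s ≠ 0 := by
      rw [hs]
      exact inv_ne_zero hq
    have hex' := hNFT K n ι e Z (upT K (frmT c)) x y (x 0)⁻¹ s (-(s * (y 0 * (x 0)⁻¹))) hF
      (inv_ne_zero hx0') hs0 hex
    obtain ⟨u, hu⟩ : ∃ u : Fin n → K, u = fun a => (x 0)⁻¹ * x a.succ := ⟨_, rfl⟩
    obtain ⟨w, hw⟩ : ∃ w : Fin n → K, w = fun a =>
      s * y a.succ + -(s * (y 0 * (x 0)⁻¹)) * x a.succ := ⟨_, rfl⟩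
    have hx1 : (x 0)⁻¹ • x = (Fin.cons 1 u : Fin (n + 1) → K) := by
      funext i
      rw [Pi.smul_apply, smul_eq_mul]
      refine Fin.cases ?_ (fun j => ?_) i
      · rw [Fin.cons_zero, inv_mul_cancel₀ hx0']
      · rw [Fin.cons_succ, hu]
    have hy1 : s • y + -(s * (y 0 * (x 0)⁻¹)) • x = (Fin.cons 0 w : Fin (n + 1) → K) := by
      funext i
      rw [Pi.add_apply, Pi.smul_apply, Pi.smul_apply, smul_eq_mul, smul_eq_mul]
      refine Fin.cases ?_ (fun j => ?_) i
      · rw [Fin.cons_zero]
        field_simp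
        ring
      · rw [Fin.cons_succ, hw]
    have hwq : w q = 1 := by
      rw [hw]
      show s * y q.succ + -(s * (y 0 * (x 0)⁻¹)) * x q.succ = 1
      have h2 : s * (y q.succ - y 0 * (x 0)⁻¹ * x q.succ) = 1 := by
        rw [hs]
        exact inv_mul_cancel₀ hq
      linear_combination h2
    rw [hx1, hy1] at hex'
    obtain ⟨hz, α, β, hnz⟩ := hex'
    choose a b hab hab' using hnz
    -- the point over the algebraic closure
    have hup : ∀ i, upT (AlgebraicClosure K) (frmT c) i =
        MvPolynomial.map (algebraMap K (AlgebraicClosure K)) (upT K (frmT c) i) := by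
      intro i
      unfold upT up
      rw [MvPolynomial.map_map, ← IsScalarTower.algebraMap_eq]
    have hcons : ∀ (r : K) (u : Fin n → K),
        (Fin.cons (algebraMap K (AlgebraicClosure K) r)
          (fun a => algebraMap K (AlgebraicClosure K) (u a)) : Fin (n + 1) → _) =
        fun i => algebraMap K (AlgebraicClosure K) ((Fin.cons r u : Fin (n + 1) → K) i) := by
      intro r u
      funext i
      refine Fin.cases ?_ (fun j => ?_) i
      · rw [Fin.cons_zero, Fin.cons_zero]
      · rw [Fin.cons_succ, Fin.cons_succ]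
    have hres : ∀ i, res (Fin.cons 1 (fun a => algebraMap K (AlgebraicClosure K) (u a)) :
        Fin (n + 1) → AlgebraicClosure K) (Fin.cons 0 fun a => algebraMap K _ (w a))
        (upT (AlgebraicClosure K) (frmT c) i) =
        (res (Fin.cons 1 u : Fin (n + 1) → K) (Fin.cons 0 w) (upT K (frmT c) i)).map
          (algebraMap K (AlgebraicClosure K)) := by
      intro i
      refine Polynomial.funext fun T => ?_
      rw [TT.eval_map_res, TT.eval_res, hup]
      congr 2
      funext j
      have h2 := congrFun (hcons 1 u) j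
      have h3 := congrFun (hcons 0 w) j
      rw [map_one] at h2
      rw [map_zero] at h3
      rw [h2, h3]
    have hevK : ∀ i, eval (Fin.cons 1 (fun a => algebraMap K (AlgebraicClosure K) (u a)) :
        Fin (n + 1) → AlgebraicClosure K) (upT (AlgebraicClosure K) (frmT c) i) =
        algebraMap K (AlgebraicClosure K)
          (eval (Fin.cons 1 u : Fin (n + 1) → K) (upT K (frmT c) i)) := by
      intro i
      have h2 := hcons 1 u
      rw [map_one] at h2
      rw [h2, hup]
      exact (TT.up_eval (algebraMap K (AlgebraicClosure K)) _ _).symm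
    obtain ⟨a', ha'⟩ : ∃ a' : (i : ι) → Fin (e i + 2), ∀ i (hi : i ∉ Z), (a' i : ℕ) = a i hi := by
      refine ⟨fun i => if hi : i ∉ Z then ⟨a i hi, by have := hab i hi; omega⟩ else 0, ?_⟩
      intro i hi
      simp [dif_pos hi]
    have hfin : aeval (fun a => algebraMap K (AlgebraicClosure K) (u a)) (Φ q a') = 0 := by
      refine hΦ' q a' (AlgebraicClosure K) _ (fun a => algebraMap K (AlgebraicClosure K) (w a))
        ![α, β] ?_ ?_ ?_
      · rw [hwq, map_one]
      · intro i hi
        rw [hres, hz i hi, Polynomial.map_zero]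
      · intro i hi
        have h2 : e i + 1 - (a' i : ℕ) = b i hi := by
          have := hab i hi
          have := ha' i hi
          omega
        rw [hres, hab' i hi, hevK, h2, ha' i hi]
        rfl
    have hΨu : aeval u Ψ = 0 := by
      apply (algebraMap K (AlgebraicClosure K)).injective
      rw [map_zero, ← aeval_algebraMap_apply]
      simp only [Ψ, map_prod]
      exact Finset.prod_eq_zero (Finset.mem_univ q) (Finset.prod_eq_zero (Finset.mem_univ a') hfin)
    rw [hom0_eval Ψ x u (by
      intro a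
      rw [hu]
      show x a.succ = x 0 * ((x 0)⁻¹ * x a.succ)
      rw [mul_inv_cancel_left₀ hx0']), hΨu, mul_zero, mul_zero]

end Pool.Agent.H30.VMP
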