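import Pool.Agent.H30.VM.TargetsB
import Pool.Agent.H30.VM.TargetsG
import Pool.Agent.H17.CI.GT

/-!
# MP_70ba79_ag: the system of operators of a generic family (row GT of the board `vmp_modules`)
-/

set_option autoImplicit false

namespace Pool.Agent.H30.VMP

open MvPolynomial SC Pool.Agent.H27.LV Pool.Agent.H17.VG
open Pool.Agent.H17.CI (Tup IlT PQT TxT frmT upT RatT upT_frmT)
open Pool.Agent.H30.VM

section

variable {R K : Type} [Field R] [Field K] [Algebra R K] {n : ℕ} {ι : Type}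

/-- symbols of linear combinations -/
lemma sym_sum (hOP : Pool.Agent.H17.VG.T_OP) {i₀ : ι} {F : Tup ι K n} {σ : Type} (s : Finset σ) (a : σ → K)
    (τ : σ → Op R K n) (l : σ → ι → K) (G : σ → Tup ι K n)
    (h : ∀ j ∈ s, Sym i₀ F (τ j) (l j) (G j)) :
    Sym i₀ F (∑ j ∈ s, a j • τ j) (∑ j ∈ s, a j • l j) (fun i => ∑ j ∈ s, C (a j) * G j i) := by
  refine ⟨?_, ?_⟩
  · rw [Finset.sum_apply]
    refine Finset.sum_eq_zero fun i hi => ?_
    rw [Pi.smul_apply, (h i hi).1, smul_zero]
  · intro i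
    rw [opF_sum hOP, Finset.sum_apply, map_sum, Finset.sum_mul, ← Finset.sum_add_distrib]
    refine Finset.sum_congr rfl fun j hj => ?_
    rw [← (h j hj).2 i, Pi.smul_apply, smul_eq_mul, map_mul]
    ring

end

theorem pf_GT (hFE : T_FET) (hBS : T_BST) (hFDT : Pool.Agent.H17.CI.T_FDT)
    (hDXT : Pool.Agent.H17.CI.T_DXT) (hKDT : Pool.Agent.H17.CI.T_KDT)
    (hCD : Pool.Agent.H17.VG.T_CD) (hOP : Pool.Agent.H17.VG.T_OP) : T_GT := by
  classical
  intro k _ _ _ n ι _ i₀ e c hn1 hn hc
  obtain ⟨P, hP⟩ := hBS k n ι i₀ e c (hFE k n ι i₀ e c hn1 hn hc)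
  obtain ⟨R, hR1, hR2, hR3⟩ := hFDT k (Σ i, Mon (n + 1) (e i + 1)) c hc P
  refine ⟨R, ?_⟩
  intro K _ _ _ htr D hD
  have hcK : CharZero K := charZero_of_injective_algebraMap (algebraMap k K).injective
  -- the derivation over `R`
  obtain ⟨D', hD'⟩ : ∃ D' : Derivation R K K, ∀ z, D' z = D z := by
    refine ⟨Derivation.mk' { toFun := D, map_add' := map_add D, map_smul' := ?_ }
      (fun a b => D.leibniz a b), fun z => rfl⟩
    intro r z
    have h1 : r • z = (r : k) • z := rfl
    rw [h1, D.map_smul]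
    rfl
  have hRD : ∀ (θ : Derivation R K K) (M : Σ i, Mon (n + 1) (e i + 1)), ¬ P M →
      θ (algebraMap k K (c M)) = 0 := by
    intro θ M hM
    have h1 : algebraMap k K (c M) = algebraMap R K ⟨c M, hR1 M hM⟩ := rfl
    rw [h1, θ.map_algebraMap]
  obtain ⟨hBS1, hBS2⟩ := hP K
  -- rational operators
  have hrat : ∀ G : Tup ι k n, (∀ i, (G i).IsHomogeneous (e i + 1)) →
      ∃ (τ : Op R K n) (l : ι → K), RatT k τ l ∧ Sym i₀ (upT K (frmT c)) τ l (upT K G) := by
    intro G hG
    obtain ⟨g, A, l, hg, hA, hGA⟩ := (hP k).1 G hG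
    obtain ⟨θ, hθ1, hθ2⟩ := hDXT k (Σ i, Mon (n + 1) (e i + 1)) c P R hR2 hR3 K htr
      (fun M => g M.1)
    refine ⟨(θ, Matrix.of fun i j => algebraMap k K (A i j)), fun i => algebraMap k K (l i),
      ⟨⟨hθ1, fun i j => ⟨A i j, rfl⟩⟩, fun i => ⟨l i, rfl⟩⟩, ?_, ?_⟩
    · show algebraMap k K (l i₀) = 0
      rw [hA, map_zero]
    · intro i
      unfold opF
      rw [upT_frmT]
      unfold frmT
      rw [cD_frm hCD]
      have h1 : (fun M : Mon (n + 1) (e i + 1) => θ (algebraMap k K (c ⟨i, M⟩))) =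
          fun M => algebraMap k K (g ⟨i, M⟩) := by
        funext M
        by_cases hM : P ⟨i, M⟩
        · exact hθ2 ⟨⟨i, M⟩, hM⟩
        · rw [hRD θ _ hM, hg _ hM, map_zero]
      have h1' : (fun M : Mon (n + 1) (e i + 1) => θ ((fun M => algebraMap k K (c M)) ⟨i, M⟩)) =
          fun M => algebraMap k K (g ⟨i, M⟩) := h1
      rw [h1', ← up_frm, ← up_frm]
      unfold upT
      rw [hGA i]
      have h2 : upT k (frmT c) i = frmT c i := by
        unfold upT up
        exact MvPolynomial.map_id _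
      rw [h2]
      unfold up frmT
      simp only [map_add, map_sum, map_mul, map_C, map_X, Matrix.of_apply, pderiv_map]
  refine ⟨D', hD', ⟨?_, ?_, ?_, ?_⟩, hrat⟩
  · intro i
    exact (frm_homog fun M => c ⟨i, M⟩).map _
  · intro i
    rw [upT_frmT]
    unfold frmT
    rw [cD_frm hCD]
    have h1 : (fun M : Mon (n + 1) (e i + 1) =>
        D' ((fun M => algebraMap k K (c M)) (⟨i, M⟩ : Σ i, Mon (n + 1) (e i + 1)))) =
        fun _ => (0 : K) := by
      funext M
      rw [hD', D.map_algebraMap]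
    rw [h1]
    unfold frm
    simp
  · intro G hG
    have h1 : ∀ i, G i = frm fun M : Mon (n + 1) (e i + 1) => (G i).coeff (fs M.1) :=
      fun i => dec (hG i)
    have hsing : ∀ M : Σ i, Mon (n + 1) (e i + 1), ∀ i,
        ((Pi.single M.1 (mono k M.2.1) : Tup ι k n) i).IsHomogeneous (e i + 1) := by
      rintro ⟨i0, M⟩ i
      by_cases hi : i = i0
      · subst hi
        rw [Pi.single_eq_same]
        exact isHomogeneous_mono M
      · rw [Pi.single_eq_of_ne hi]
        exact isHomogeneous_zero _ _ _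
    choose τ l hτ1 hτ2 using fun M : Σ i, Mon (n + 1) (e i + 1) =>
      hrat (Pi.single M.1 (mono k M.2.1)) (hsing M)
    refine ⟨∑ M, (G M.1).coeff (fs M.2.1) • τ M, ∑ M, (G M.1).coeff (fs M.2.1) • l M, ?_⟩
    have h3 := sym_sum hOP Finset.univ (fun M : Σ i, Mon (n + 1) (e i + 1) =>
      (G M.1).coeff (fs M.2.1)) τ l (fun M => upT K (Pi.single M.1 (mono k M.2.1)))
      (fun M _ => hτ2 M)
    have h4 : (fun i => ∑ M : Σ i, Mon (n + 1) (e i + 1), C ((G M.1).coeff (fs M.2.1)) *
        upT K (Pi.single M.1 (mono k M.2.1)) i) = G := by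
      funext i
      conv_rhs => rw [h1 i]
      rw [Fintype.sum_sigma, Finset.sum_eq_single i]
      · unfold frm
        refine Finset.sum_congr rfl fun M _ => ?_
        congr 1
        unfold upT
        rw [Pi.single_eq_same]
        unfold up mono
        rw [map_monomial, map_one]
      · intro j _ hj
        refine Finset.sum_eq_zero fun M _ => ?_
        unfold upT
        rw [Pi.single_eq_of_ne (Ne.symm hj)]
        unfold up
        rw [map_zero, mul_zero]
      · intro h
        exact absurd (Finset.mem_univ i) h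
    rw [h4] at h3
    exact h3
  · intro τ l hτ
    have h1 := hBS2 (fun M => τ.1 (algebraMap k K (c M))) τ.2 l (fun M hM => hRD τ.1 M hM)
      hτ.1 (by
        intro i
        have h2 := hτ.2 i
        unfold opF at h2
        rw [upT_frmT] at h2 ⊢
        unfold frmT at h2 ⊢
        rw [cD_frm hCD] at h2
        exact h2)
    refine ⟨h1.2.1, h1.2.2, ?_⟩
    refine hKDT k (Σ i, Mon (n + 1) (e i + 1)) c P R hR3 K htr D D' τ.1 hD hD' fun M => ?_
    exact congrFun h1.1 M.1

end Pool.Agent.H30.VMP
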