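import Pool.Agent.H30.VM.TargetsB
import Pool.Agent.H30.VM.TargetsD
import Pool.Agent.H30.VMP.GT
import Pool.Agent.H17.CI.DT

/-!
# MP_70ba79_ag: the height inequality (row DT of the board `vmp_modules`)
-/

set_option autoImplicit false

namespace Pool.Agent.H30.VMP

open MvPolynomial SC Pool.Agent.H27.LV Pool.Agent.H17.VG
open Pool.Agent.H17.CI (Tup IlT PQT TxT frmT upT RatT exists_J inj_of_det ge_div)
open Pool.Agent.H30.VM

lemma exists_minor1 {K : Type} [Field K] {n : ℕ} (x y : Fin (n + 1) → K) (p : Fin (n + 1))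
    (hx : x p = 1) (hxy : Indep x y) : ∃ a b, x a * y b - x b * y a ≠ 0 := by
  by_contra hcon
  push Not at hcon
  unfold Indep at hxy
  rw [LinearIndependent.pair_iff] at hxy
  have h1 := hxy (y p) (-1) (by
    funext b
    have h2 := hcon p b
    rw [hx, one_mul] at h2
    simp only [Pi.add_apply, Pi.smul_apply, smul_eq_mul, Pi.zero_apply]
    linear_combination -h2)
  exact one_ne_zero (neg_eq_zero.1 h1.2)

theorem pf_DT (hDB : T_DBT) (hSU : T_SU4) (hNA : T_NAT) (hNB : T_NBT)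
    (hWD : Pool.Agent.H30.VM.T_WDT) (hOP : Pool.Agent.H17.VG.T_OP) : T_DT := by
  classical
  intro R k K _ _ _ _ _ _ _ _ htr n s ι _ i₀ e F hF hNC D D' hD0 hD' hsys hrat Z x p hp hx S hS Q
  have hcK : CharZero K := charZero_of_injective_algebraMap (algebraMap k K).injective
  obtain ⟨J, hJ⟩ := exists_J _ hx.grad
  have hJinj : Function.Injective J :=
    inj_of_det (fun (i : Z) (a : Fin (n + 1)) => eval x (pderiv a (upT K F i))) J hJ
  have hJ' : gJ (upT K F) x J ≠ 0 := by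
    unfold gJ
    exact hJ
  -- rational operators
  have hop : ∀ (i : Fin (n + 1)) (q : (Σ i, Mon (n + 1) (e i)) → k),
      ∃ (τ : Op R K n) (l : ι → K), RatT k τ l ∧
      Sym i₀ (upT K F) τ l (fun a => X i * upT K (frmT q) a) := by
    intro i q
    obtain ⟨τ, l, h1, h2⟩ := hrat (fun a => X i * frmT q a) (by
      intro a
      have := (isHomogeneous_X k i).mul (frm_homog fun M => q ⟨a, M⟩)
      rw [Nat.add_comm (e a) 1]
      exact this)
    refine ⟨τ, l, h1, ?_⟩
    have h3 : (fun a => X i * upT K (frmT q) a) = upT K (fun a => X i * frmT q a) := by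
      funext a
      unfold upT up
      rw [map_mul, map_X]
    rw [h3]
    exact h2
  obtain ⟨u, hu⟩ : ∃ u : K, u = ∏ a ∈ Finset.univ \ Z, eval x (upT K F a) := ⟨_, rfl⟩
  have hu1 : ∀ a ∈ Finset.univ \ Z, eval x (upT K F a) ≠ 0 := by
    intro a ha h0
    exact (Finset.mem_sdiff.1 ha).2 ((hx.on a).1 h0)
  have hu0 : u ≠ 0 := by
    rw [hu]
    exact Finset.prod_ne_zero_iff.2 hu1
  have huv : ∀ v : DV k K, v.ord u = ∑ a ∈ Finset.univ \ Z, v.ord (eval x (upT K F a)) := by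
    intro v
    rw [hu]
    exact v.ord_prod _ _ hu1
  obtain ⟨g, hg⟩ : ∃ g : K, g = gJ (upT K F) x J := ⟨_, rfl⟩
  have hg0 : g ≠ 0 := by rw [hg]; exact hJ'
  refine ⟨?_, ?_⟩
  · intro hfin
    choose τ l hτ1 hτ2 using fun (i : Fin (n + 1)) (j : Fin s) => hop i (Q j)
    obtain ⟨T, e0, hdet⟩ := hNA R k K n s ι i₀ e (upT K F) D D' Z x p hp hsys hD' hx
      (fun j => upT K (frmT (Q j))) τ l hτ2 hfin J hJ'
    obtain ⟨P, hP⟩ : ∃ P : K, P = ((bigP D x (fun c : T => τ c.1.1 c.1.2) (fun c => c.1.1)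
        (fun c => c.1.2) J).submatrix e0 id).det := ⟨_, rfl⟩
    rw [← hP] at hdet
    have hB := fun v => hDB R k K htr n s ι i₀ e F hF hNC D hD0 Z x p hp hx.on
      (fun j => frmT (Q j)) T (fun c : T => τ c.1.1 c.1.2) (fun c : T => l c.1.1 c.1.2)
      (fun c => c.1.1) (fun c => c.1.2) J e0 (fun c => hτ1 _ _) (fun c => hτ2 _ _) hJinj hJ' v
    rw [← hP, ← hg] at hB
    have h1 := hSU k K htr n ((n : ℤ) + 1 + s - Z.card) (((∑ a, (e a + 1) : ℕ) : ℤ) - Z.card) D hD0 x
      u hu0 S Unit (fun _ => P / g) () (div_ne_zero hdet hg0)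
      (fun v _ hv => ge_div hg0 ((hB v).2 (hS v hv)) (by rw [huv]; linarith))
      (fun v _ => ge_div hg0 (hB v).1 (by rw [huv]; linarith))
    have h3 : (0 : ℤ) ≤ (deg k (fun _ : Unit => P / g / (P / g)) : ℤ) := Int.natCast_nonneg _
    have h4 : (((∑ a, (e a + 1) : ℕ) : ℤ) - Z.card) - ((n : ℤ) + 1 + s - Z.card) =
        ((∑ i, (e i + 1) : ℕ) : ℤ) - n - 1 - s := by
      ring
    rw [h4] at h1
    linarith
  · intro hfin Q' ξ τ0 l0 hξ hτ0 hnot
    obtain ⟨Qh, hQh⟩ : ∃ Qh : Fin (s + 1) → (Σ i, Mon (n + 1) (e i)) → k, Qh =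
      Fin.snoc (α := fun _ => (Σ i, Mon (n + 1) (e i)) → k) Q Q' := ⟨_, rfl⟩
    have hQ1 : ∀ j : Fin s, Qh j.castSucc = Q j := fun j => by rw [hQh, Fin.snoc_castSucc]
    have hQ2 : Qh (Fin.last s) = Q' := by rw [hQh, Fin.snoc_last]
    choose τ l hτ1 hτ2 using fun (i : Fin (n + 1)) (j : Fin (s + 1)) => hop i (Qh j)
    have hUt : UtT R i₀ (upT K F) x (PQT x fun j : Fin s => upT K (frmT (Qh j.castSucc))) =
        UtT R i₀ (upT K F) x (PQT x fun j => upT K (frmT (Q j))) := by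
      simp only [hQ1]
    have hDmem : (fun i => D' (x i)) ∈ UtT R i₀ (upT K F) x
        (PQT x fun j => upT K (frmT (Q j))) := by
      refine Submodule.subset_span (Or.inl ⟨((D', 0) : Op R K n), 0, 0, zero_mem _,
        ⟨rfl, ?_⟩, ?_⟩)
      · intro i
        unfold opF
        simp [hsys.base i]
      · funext i
        simp [opV]
    have hex : ∃ ξ : Fin (n + 1) → K, ∑ i, ξ i * x i = 0 ∧
        ∑ i, ξ i • opV (τ i (Fin.last s)) x ∉
          UtT R i₀ (upT K F) x (PQT x fun j : Fin s => upT K (frmT (Qh j.castSucc))) := by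
      refine ⟨ξ, hξ, ?_⟩
      rw [hUt]
      intro hin
      apply hnot
      have h0 := sym_sum hOP Finset.univ ξ (fun i => τ i (Fin.last s)) (fun i => l i (Fin.last s))
        (fun i a => X i * upT K (frmT (Qh (Fin.last s))) a) (fun i _ => hτ2 i (Fin.last s))
      have h1 : (fun a => ∑ i, C (ξ i) * (X i * upT K (frmT (Qh (Fin.last s))) a)) =
          fun a => lin ξ * upT K (frmT Q') a := by
        funext a
        unfold lin
        rw [Finset.sum_mul, hQ2]
        refine Finset.sum_congr rfl fun i _ => ?_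
        rw [mul_assoc]
      rw [h1] at h0
      obtain ⟨c, hc⟩ := hWD R K n ι i₀ e (upT K F) D' hsys τ0 _ l0 _ _ hτ0 h0
      rw [hc x, opV_sum hOP]
      exact add_mem hin (Submodule.smul_mem _ _ hDmem)
    obtain ⟨T, e0, y, σ, hy, hσ, hdet⟩ := hNB R k K n s ι i₀ e (upT K F) D D' Z x p hp hsys hD' hx
      (fun j => upT K (frmT (Qh j))) τ l hτ2 (by rw [hUt]; exact hfin) hex J hJ'
    obtain ⟨a, b, hab⟩ := exists_minor1 x y p hp hy
    refine ⟨y, a, b, hy, hab, ?_⟩
    obtain ⟨P, hP⟩ : ∃ P : Fin (n + 1) × Fin (n + 1) → K, P = fun ab =>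
      ((bigP D x (Sum.elim (fun c : T => τ c.1.1 c.1.2.castSucc)
        (fun t : Fin 2 => τ (if t = 0 then ab.1 else ab.2) (Fin.last s)))
      (Sum.elim (fun c => c.1.1) (fun t : Fin 2 => if t = 0 then ab.1 else ab.2))
      (Sum.elim (fun c => c.1.2.castSucc) (fun _ => Fin.last s)) J).submatrix e0 id).det :=
        ⟨_, rfl⟩
    have hPv : ∀ ab, P ab = σ * (x ab.1 * y ab.2 - x ab.2 * y ab.1) := by
      intro ab
      rw [hP]
      exact hdet ab.1 ab.2
    have hB := fun (v : DV k K) (ab : Fin (n + 1) × Fin (n + 1)) =>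
      hDB R k K htr n (s + 1) ι i₀ e F hF hNC D hD0 Z x p hp hx.on (fun j => frmT (Qh j))
      (T ⊕ Fin 2) (Sum.elim (fun c : T => τ c.1.1 c.1.2.castSucc)
        (fun t : Fin 2 => τ (if t = 0 then ab.1 else ab.2) (Fin.last s)))
      (Sum.elim (fun c : T => l c.1.1 c.1.2.castSucc)
        (fun t : Fin 2 => l (if t = 0 then ab.1 else ab.2) (Fin.last s)))
      (Sum.elim (fun c => c.1.1) (fun t : Fin 2 => if t = 0 then ab.1 else ab.2))
      (Sum.elim (fun c => c.1.2.castSucc) (fun _ => Fin.last s)) J e0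
      (by rintro (c | t) <;> exact hτ1 _ _) (by rintro (c | t) <;> exact hτ2 _ _) hJinj hJ' v
    rw [← hg] at hB
    have hB1 : ∀ (v : DV k K) (ab : Fin (n + 1) × Fin (n + 1)),
        ge v (v.ord u + (((∑ a, (e a + 1) : ℕ) : ℤ) - Z.card) * poleOrder v x -
          ((n : ℤ) + 1 + (s + 1 : ℕ) - Z.card) * poleOrder v x - 1 + ordD v D) (P ab / g) := by
      intro v ab
      refine ge_div hg0 ?_ le_rfl
      rw [hP]
      refine (congrArg (fun t => ge v t _) ?_).mp (hB v ab).1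
      rw [huv]
      ring
    have h1 := hSU k K htr n ((n : ℤ) + 1 + (s + 1 : ℕ) - Z.card)
      (((∑ a, (e a + 1) : ℕ) : ℤ) - Z.card) D hD0 x u hu0 S
      (Fin (n + 1) × Fin (n + 1)) (fun ab => P ab / g) (a, b)
      (div_ne_zero (by rw [hPv]; exact mul_ne_zero hσ hab) hg0)
      (fun v ab hv => by
        refine ge_div hg0 ?_ le_rfl
        rw [hP]
        refine (congrArg (fun t => ge v t _) ?_).mp ((hB v ab).2 (hS v hv))
        rw [huv]
        ring)
      hB1
    have h3 : (fun c => P c / g / (P (a, b) / g)) = fun ij : Fin (n + 1) × Fin (n + 1) =>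
        (x ij.1 * y ij.2 - x ij.2 * y ij.1) / (x a * y b - x b * y a) := by
      funext c
      rw [div_div_div_cancel_right₀ hg0, hPv, hPv, mul_div_mul_left _ _ hσ]
    have h4 : (((∑ a, (e a + 1) : ℕ) : ℤ) - Z.card) - ((n : ℤ) + 1 + (s + 1 : ℕ) - Z.card) =
        ((∑ i, (e i + 1) : ℕ) : ℤ) - n - 1 - (s + 1) := by
      push_cast
      ring
    rw [h4] at h1
    have h5 : deg k (fun c => P c / g / (P (a, b) / g)) = hln k x y a b := by
      rw [h3]
      rfl
    rw [← h5]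
    exact h1

end Pool.Agent.H30.VMP
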