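import Pool.Agent.H17.CI.All
import Pool.Agent.H34.VMP.BT
import Pool.Agent.H34.VMP.JYT
import Pool.Agent.H91.VMP.DGT
import Pool.Agent.H91.VMP.ETT
import Pool.Agent.H91.VMP.GRT
import Pool.Agent.H91.VMP.SUT
import Pool.Agent.H50.VMP.EVT
import Pool.Agent.H50.VMP.STT
import Pool.Agent.H39.VMP.IMT
import Pool.Agent.H33.VMP.IQT
import Pool.Agent.H77.VMP.KYT
import Pool.Agent.H77.VMP.SU4
import Pool.Agent.H77.VMP.WDT
import Pool.Agent.H1.VMP.PST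
import Pool.Agent.H1.VMP.SY
import Pool.Agent.H1.VMP.TPT
import Pool.Agent.H49.VMP.PTA
import Pool.Agent.H42.VMP.SMT
import Pool.Agent.H18.VMP.TRT
import Pool.Agent.H18.VMP.XMT
import Pool.Agent.H65.VM.BIT
import Pool.Agent.H65.VM.RLT
import Pool.Agent.H59.VM.DBT
import Pool.Agent.H59.VM.PTB
import Pool.Agent.H39.VMP.BST
import Pool.Agent.H25.VMP.FET
import Pool.Agent.H25.VMP.HA
import Pool.Agent.H34.VMP.NC
import Pool.Agent.H19.VMP.PSP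
import Pool.Agent.H68.VMP.ROW
import Pool.Agent.H95.VMP.VDP
import Pool.Agent.H91.VMP.ROT
import Pool.Agent.H91.VMP.XPO
import Pool.Agent.H1.VMP.NAT
import Pool.Agent.H35.VMP.NBT
import Pool.Agent.H30.VMP.ALT
import Pool.Agent.H30.VMP.FIP
import Pool.Agent.H30.VMP.DT
import Pool.Agent.H30.VMP.GT
import Pool.Agent.H30.VMP.XFT

/-!
# MP_70ba79_ag: very general log complete intersections in projective space, assembly
-/

set_option autoImplicit false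

namespace Pool.Agent.H30.VMP

open Pool.Agent.H30.VM

/-- the main theorem, all modules of the board `vmp_modules` together -/
theorem fip_all : T_FIP := by
  have hOP := Pool.Agent.H97.VG.op
  have hRS := Pool.Agent.H52.VG.rs
  have hRO := Pool.Agent.H52.VG.ro
  have hIL := Pool.Agent.H52.VG.il
  have hLF := Pool.Agent.H52.VG.lf
  have hIP := Pool.Agent.H77.VG.ip
  have hEV := Pool.Agent.H97.VG.ev
  have hLL := Pool.Agent.H17.VG.ll Pool.Agent.H30.VG.d0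
  have hG1 := Pool.Agent.H66.VG.g1
  have hG2 := Pool.Agent.H17.VG.G2 hG1
  have hXDD := Pool.Agent.H17.CI.pf_XDD hG1
  have hSY : T_SY := Pool.Agent.H1.VMP.pf_SY
  have hWDT : Pool.Agent.H30.VM.T_WDT := Pool.Agent.H77.VMP.pf_WDT
  have hEVT : T_EVT := Pool.Agent.H50.VMP.pf_EVT hEV hRS
  have hSUT : T_SUT := Pool.Agent.H91.VMP.pf_SUT hEV hRS
  have hIMT : T_IMT := Pool.Agent.H39.VMP.pf_IMT hOP hRS hRO hLF
  have hJYT : T_JYT := Pool.Agent.H34.VMP.pf_JYT hRS hLF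
  have hKYT : T_KYT := Pool.Agent.H77.VMP.pf_KYT hRS
  have hPST : T_PST := Pool.Agent.H1.VMP.pf_PST hOP hRS hIL hEVT hSUT
  have hIQT : T_IQT := Pool.Agent.H33.VMP.pf_IQT hOP hRO
  have hETT : T_ETT := Pool.Agent.H91.VMP.pf_ETT hRS hKYT hPST hIMT
  have hRLT : T_RLT := Pool.Agent.H30.VM.pf_RLT hRS Pool.Agent.H97.VG.re Pool.Agent.H97.VG.dc
    hLF hETT hPST hIQT hJYT
  have hDGT : T_DGT := Pool.Agent.H91.VMP.pf_DGT hRS
  have hBT : T_BT := Pool.Agent.H34.VMP.pf_BT hRS hJYT hRLT hDGT hPST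
  have hCT := Pool.Agent.H42.CI.pf_CT
  have hBIT : T_BIT := Pool.Agent.H65.VM.pf_BIT hWDT
  have hTPT : T_TPT := Pool.Agent.H1.VMP.pf_TPT hIP hSY hEVT hSUT
  have hSTT : T_STT := Pool.Agent.H50.VMP.pf_STT Pool.Agent.H17.VG.KP hBT hBIT hTPT hEVT hCT
  have hSMT : Pool.Agent.H30.VM.T_SMT := Pool.Agent.H42.VMP.pf_SMT hTPT hEVT hSY hWDT
  have hDBT : T_DBT := Pool.Agent.H59.VM.pf_DBT Pool.Agent.H91.VMP.pf_GRT
    (Pool.Agent.H68.VMP.pf_ROW hLL hEV) Pool.Agent.H64.CI.pf_DET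
  have hDT : T_DT := pf_DT hDBT Pool.Agent.H77.VMP.pf_SU4
    (Pool.Agent.H1.VMP.pf_NAT hSY hWDT hEVT) (Pool.Agent.H35.VMP.pf_NBT hSY hWDT hEVT) hWDT hOP
  have hGT : T_GT := pf_GT (Pool.Agent.H25.VMP.pf_FET Pool.Agent.H25.VMP.pf_HA)
    Pool.Agent.H39.VMP.pf_BST Pool.Agent.H17.CI.pf_FDT (Pool.Agent.H64.CI.pf_DXT hG1)
    Pool.Agent.H59.CI.pf_KDT Pool.Agent.H97.VG.cd hOP
  have hNC : Pool.Agent.H30.VM.T_NC := Pool.Agent.H34.VMP.pf_NC hG2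
  have hALT : T_ALT := pf_ALT hSTT hSMT hDT hGT hNC hEVT
  have hMNT : T_MNT := pf_MNT hALT Pool.Agent.H17.CI.e_all
    Pool.Agent.H91.VMP.pf_ROT Pool.Agent.H18.VMP.pf_TRT
  have hXFT : T_XFT := pf_XFT Pool.Agent.H6.CI.pf_GPT (Pool.Agent.H45.CI.pf_NZT hXDD)
    (Pool.Agent.H18.VMP.pf_XMT hXDD) Pool.Agent.H49.CI.pf_XEL Pool.Agent.H91.VMP.pf_XPO
    Pool.Agent.H45.CI.pf_NST pf_NFT
  exact pf_FIP hMNT Pool.Agent.H49.VMP.pf_PTA (Pool.Agent.H59.VM.pf_PTB Pool.Agent.H45.CI.pf_NST)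
    (Pool.Agent.H95.VMP.pf_VDP Pool.Agent.H92.VG.pf_VD) hXFT Pool.Agent.H19.VMP.pf_PSP

end Pool.Agent.H30.VMP
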